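import Mathlib

/-!
# Perfect images of paralindelöf spaces are paralindelöf

More generally let `f : X → Y` be a closed continuous surjection with Lindelöf fibres, and let `X` be
paralindelöf. Given an open cover of `Y`, take a locally countable open refinement `V` of its preimage.
The family of all `f (V)` is locally countable in `Y`, so the family of all `f⁻¹ (f (V))` is locally
countable in `X`. Since `X` is paralindelöf, this family has a locally countable open expansion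
`O V ⊇ f⁻¹ (f (V))`, and the sets `Y \ f (X \ O V)` are open, contain `f (V)` and form a locally countable
family, because they are contained in `f (O V)`.
-/

set_option autoImplicit false

open Set Topology Filter

namespace Pool.Agent.Results.MP_6bd103_gt.PerfectImage

universe u v

/-- a family of sets is locally countable: each point has a neighbourhood which meets only countably
many members -/
def LocallyCountable {X : Type*} [TopologicalSpace X] (A : Set (Set X)) : Prop :=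
  ∀ x, ∃ N ∈ 𝓝 x, {V | V ∈ A ∧ (V ∩ N).Nonempty}.Countable

/-- `X` is paralindelöf: each open cover has a locally countable open refinement -/
def Paralindelof (X : Type*) [TopologicalSpace X] : Prop :=
  ∀ U : Set (Set X), (∀ A ∈ U, IsOpen A) → ⋃₀ U = univ →
    ∃ V : Set (Set X), (∀ A ∈ V, IsOpen A) ∧ ⋃₀ V = univ ∧ (∀ A ∈ V, ∃ B ∈ U, A ⊆ B) ∧
      LocallyCountable V

/-- local countability of an indexed family -/
def LC {ι X : Type*} [TopologicalSpace X] (A : ι → Set X) : Prop :=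
  ∀ x, ∃ N : Set X, IsOpen N ∧ x ∈ N ∧ {i | (A i ∩ N).Nonempty}.Countable

section

variable {X Y : Type*} [TopologicalSpace X] [TopologicalSpace Y]

/-- images of locally countable families under closed maps with Lindelöf fibres -/
theorem LC.image {ι : Type*} {f : X → Y} (hcl : IsClosedMap f)
    (hfib : ∀ y, IsLindelof (f ⁻¹' {y})) {A : ι → Set X} (hA : LC A) :
    LC fun i => f '' A i := by
  intro y
  choose N hN hxN hNc using hA
  obtain ⟨t, htc, ht⟩ := (hfib y).elim_nhds_subcover N fun x _ => (hN x).mem_nhds (hxN x)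
  let G : Set X := ⋃ x ∈ t, N x
  have hG : IsOpen G := isOpen_biUnion fun x _ => hN x
  refine ⟨(f '' Gᶜ)ᶜ, (hcl _ hG.isClosed_compl).isOpen_compl, ?_, ?_⟩
  · rintro ⟨x, hx, hxy⟩
    exact hx (ht.2 hxy)
  · refine (htc.biUnion fun x _ => hNc x).mono ?_
    rintro i ⟨z, ⟨x, hx, rfl⟩, hz⟩
    have hxG : x ∈ G := by
      by_contra h
      exact hz ⟨x, h, rfl⟩
    obtain ⟨w, hw, hxw⟩ := mem_iUnion₂.1 hxG
    exact mem_iUnion₂.2 ⟨w, hw, x, hx, hxw⟩

theorem LC.preimage {ι : Type*} {f : X → Y} (hf : Continuous f) {A : ι → Set Y} (hA : LC A) :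
    LC fun i => f ⁻¹' A i := by
  intro x
  obtain ⟨N, hN, hxN, hc⟩ := hA (f x)
  refine ⟨f ⁻¹' N, hN.preimage hf, hxN, hc.mono ?_⟩
  rintro i ⟨z, hz1, hz2⟩
  exact ⟨f z, hz1, hz2⟩

/-- in a paralindelöf space each locally countable family has a locally countable open expansion -/
theorem expansion {ι : Type*} (hX : Paralindelof X) {A : ι → Set X} (hA : LC A) :
    ∃ O : ι → Set X, (∀ i, IsOpen (O i)) ∧ (∀ i, A i ⊆ O i) ∧ LC O := by
  obtain ⟨V, hV, hVc, hVN, hVl⟩ := hX {N | IsOpen N ∧ {i | (A i ∩ N).Nonempty}.Countable}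
    (fun N hN => hN.1) (by
      refine eq_univ_of_forall fun x => ?_
      obtain ⟨N, hN, hxN, hc⟩ := hA x
      exact ⟨N, ⟨hN, hc⟩, hxN⟩)
  refine ⟨fun i => ⋃₀ {W | W ∈ V ∧ (A i ∩ W).Nonempty}, fun i => isOpen_sUnion fun W hW => hV W hW.1,
    fun i x hx => ?_, fun x => ?_⟩
  · obtain ⟨W, hW, hxW⟩ : x ∈ ⋃₀ V := by
      rw [hVc]
      exact mem_univ x
    exact ⟨W, ⟨hW, x, hx, hxW⟩, hxW⟩
  · obtain ⟨N, hN, hNc⟩ := hVl x
    obtain ⟨M, hMN, hM, hxM⟩ := mem_nhds_iff.1 hN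
    refine ⟨M, hM, hxM, ?_⟩
    have h1 : {i | ((⋃₀ {W | W ∈ V ∧ (A i ∩ W).Nonempty}) ∩ M).Nonempty} ⊆
        ⋃ W ∈ {W | W ∈ V ∧ (W ∩ N).Nonempty}, {i | (A i ∩ W).Nonempty} := by
      rintro i ⟨z, ⟨W, ⟨hW, hAW⟩, hzW⟩, hzM⟩
      exact mem_iUnion₂.2 ⟨W, ⟨hW, z, hzW, hMN hzM⟩, hAW⟩
    refine (hNc.biUnion fun W hW => ?_).mono h1
    obtain ⟨B, hB, hWB⟩ := hVN W hW.1
    refine hB.2.mono ?_
    rintro i ⟨z, hz1, hz2⟩
    exact ⟨z, hz1, hWB hz2⟩

end

/-- **Let `f : X → Y` be a closed continuous surjection with Lindelöf fibres (for instance a perfect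
mapping). If `X` is paralindelöf, then so is `Y`.** -/
theorem result : ∀ (X : Type u) (Y : Type v) [TopologicalSpace X] [TopologicalSpace Y] (f : X → Y),
    Continuous f → Function.Surjective f → IsClosedMap f → (∀ y, IsLindelof (f ⁻¹' {y})) →
    Paralindelof X → Paralindelof Y := by
  intro X Y _ _ f hf hsurj hcl hfib hX U hU hUc
  -- the refinement of the preimage of the cover
  obtain ⟨V, hV, hVc, hVU, hVl⟩ := hX ((fun A => f ⁻¹' A) '' U)
    (by
      rintro _ ⟨A, hA, rfl⟩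
      exact (hU A hA).preimage hf)
    (by
      refine eq_univ_of_forall fun x => ?_
      obtain ⟨A, hA, hxA⟩ : f x ∈ ⋃₀ U := by
        rw [hUc]
        exact mem_univ _
      exact ⟨f ⁻¹' A, ⟨A, hA, rfl⟩, hxA⟩)
  have hB : ∀ A : V, ∃ B ∈ U, f '' (A : Set X) ⊆ B := by
    intro A
    obtain ⟨_, ⟨B, hB, rfl⟩, hAB⟩ := hVU A A.2
    exact ⟨B, hB, image_subset_iff.2 hAB⟩
  choose B hBU hAB using hB
  have h1 : LC fun A : V => (A : Set X) := by
    intro x
    obtain ⟨N, hN, hNc⟩ := hVl x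
    obtain ⟨M, hMN, hM, hxM⟩ := mem_nhds_iff.1 hN
    refine ⟨M, hM, hxM, ?_⟩
    refine (hNc.preimage (f := (Subtype.val : V → Set X)) Subtype.val_injective).mono ?_
    rintro A ⟨z, hz1, hz2⟩
    exact ⟨A.2, z, hz1, hMN hz2⟩
  have h2 : LC fun A : V => f '' (A : Set X) := h1.image hcl hfib
  have h3 : LC fun A : V => f ⁻¹' (f '' (A : Set X)) := h2.preimage hf
  obtain ⟨O, hO, hAO, hOl⟩ := expansion hX h3
  have h4 : LC fun A : V => f '' O A := hOl.image hcl hfib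
  let G : V → Set Y := fun A => (f '' (O A)ᶜ)ᶜ ∩ B A
  have hGO : ∀ A, G A ⊆ f '' O A := by
    rintro A y ⟨hy, _⟩
    obtain ⟨x, rfl⟩ := hsurj y
    refine ⟨x, ?_, rfl⟩
    by_contra h
    exact hy ⟨x, h, rfl⟩
  refine ⟨range G, ?_, ?_, ?_, ?_⟩
  · rintro _ ⟨A, rfl⟩
    exact (hcl _ (hO A).isClosed_compl).isOpen_compl.inter (hU _ (hBU A))
  · refine eq_univ_of_forall fun y => ?_
    obtain ⟨x, rfl⟩ := hsurj y
    obtain ⟨A, hA, hxA⟩ : x ∈ ⋃₀ V := by
      rw [hVc]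
      exact mem_univ x
    refine ⟨G ⟨A, hA⟩, ⟨⟨A, hA⟩, rfl⟩, ?_, hAB ⟨A, hA⟩ ⟨x, hxA, rfl⟩⟩
    rintro ⟨z, hz, hzx⟩
    exact hz (hAO ⟨A, hA⟩ ⟨x, hxA, hzx.symm⟩)
  · rintro _ ⟨A, rfl⟩
    exact ⟨B A, hBU A, inter_subset_right⟩
  · intro y
    obtain ⟨N, hN, hyN, hNc⟩ := h4 y
    refine ⟨N, hN.mem_nhds hyN, (hNc.image G).mono ?_⟩
    rintro _ ⟨⟨A, rfl⟩, z, hz1, hz2⟩
    exact ⟨A, ⟨z, hGO A hz1, hz2⟩, rfl⟩

end Pool.Agent.Results.MP_6bd103_gt.PerfectImage
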